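import Mathlib

set_option autoImplicit false

/-!
Project GH (helper50): job CB, band limited functions at complex points (Bernstein inequality in local form).
-/

namespace Pool.Agent.V7H50.GH

open Filter Topology MeasureTheory Complex
open scoped FourierTransform SchwartzMap ContDiff

noncomputable section

/-- a kernel for a smooth multiplier on the band `|ξ| ≤ 2` -/
theorem exists_kernel {m : ℝ → ℂ} (hm : ContDiff ℝ ∞ m) : ∃ k : ℝ → ℂ, Continuous k ∧ Integrable k ∧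
    (∀ p : ℕ, ∃ C : ℝ, 0 < C ∧ ∀ x, ‖k x‖ ≤ C / (1 + |x|) ^ p) ∧
    ∀ ξ : ℝ, |ξ| ≤ 2 → ∫ x, k x * cexp (I * (ξ * x)) = m (ξ / (2 * Real.pi)) := by
  let χ : ContDiffBump (0 : ℝ) := ⟨1, 2, by norm_num, by norm_num⟩
  have h1 : ContDiff ℝ ∞ (fun w : ℝ => m w * ((χ w : ℝ) : ℂ)) := by
    have h2 : ContDiff ℝ ∞ (fun w : ℝ => ((χ w : ℝ) : ℂ)) :=
      Complex.ofRealCLM.contDiff.comp χ.contDiff
    exact hm.mul h2
  have h4 : HasCompactSupport (fun w : ℝ => m w * ((χ w : ℝ) : ℂ)) := by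
    apply HasCompactSupport.mul_left
    exact χ.hasCompactSupport.comp_left (g := fun x : ℝ => (x : ℂ)) (by simp)
  obtain ⟨f, hf⟩ : ∃ f : 𝓢(ℝ, ℂ), ∀ w : ℝ, |w| ≤ 1 → f w = m w := by
    refine ⟨h4.toSchwartzMap h1, fun w hw => ?_⟩
    show m w * ((χ w : ℝ) : ℂ) = _
    rw [χ.one_of_mem_closedBall]
    · simp
    · rw [Metric.mem_closedBall, dist_zero_right, Real.norm_eq_abs]
      exact hw
  obtain ⟨g, hg⟩ : ∃ g : 𝓢(ℝ, ℂ), g = 𝓕 f := ⟨_, rfl⟩
  have hinv : 𝓕⁻ g = f := by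
    rw [hg]
    exact FourierPair.fourierInv_fourier_eq f
  refine ⟨g, g.continuous, g.integrable, ?_, ?_⟩
  · intro p
    refine ⟨2 ^ p * ((Finset.Iic (p, 0)).sup fun m => SchwartzMap.seminorm ℝ m.1 m.2) g + 1, ?_, ?_⟩
    · have : 0 ≤ ((Finset.Iic (p, 0)).sup fun m => SchwartzMap.seminorm ℝ m.1 m.2) g :=
        apply_nonneg _ _
      positivity
    intro x
    have h1 := SchwartzMap.one_add_le_sup_seminorm_apply (𝕜 := ℝ) (m := (p, 0)) (k := p) (n := 0)
      le_rfl le_rfl g x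
    rw [norm_iteratedFDeriv_zero, Real.norm_eq_abs] at h1
    rw [le_div_iff₀ (by positivity)]
    change (1 + |x|) ^ p * ‖g x‖ ≤ 2 ^ p * _ at h1
    linarith
  · intro ξ hξ
    have h1 : (𝓕⁻ g : 𝓢(ℝ, ℂ)) (ξ / (2 * Real.pi)) = f (ξ / (2 * Real.pi)) := by rw [hinv]
    rw [SchwartzMap.fourierInv_coe, Real.fourierInv_eq', hf] at h1
    · have hpi : (Real.pi : ℂ) ≠ 0 := by exact_mod_cast Real.pi_ne_zero
      rw [← h1]
      apply integral_congr_ae
      refine Eventually.of_forall fun v => ?_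
      simp only [smul_eq_mul]
      rw [mul_comm]
      congr 2
      simp only [RCLike.inner_apply, conj_trivial]
      push_cast
      field_simp
    · rw [abs_div, abs_of_pos (by positivity : (0 : ℝ) < 2 * Real.pi), div_le_one (by positivity)]
      have := Real.pi_gt_three
      linarith

/-- Cauchy-Schwarz with a weight -/
theorem cs_weight {K h : ℝ → ℝ} {b : ℝ} (hK : Integrable K) (hK0 : ∀ x, 0 ≤ K x) (hh : Continuous h)
    (hb : ∀ x, |h x| ≤ b) : (∫ x, K x * h x) ^ 2 ≤ (∫ x, K x) * ∫ x, K x * h x ^ 2 := by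
  have i1 : Integrable (fun x => K x * h x) := by
    refine (hK.bdd_mul (c := b) hh.aestronglyMeasurable (Eventually.of_forall hb)).congr ?_
    exact Eventually.of_forall fun x => mul_comm _ _
  have i2 : Integrable (fun x => K x * h x ^ 2) := by
    refine (i1.bdd_mul (c := b) hh.aestronglyMeasurable (Eventually.of_forall hb)).congr ?_
    refine Eventually.of_forall fun x => ?_
    simp only
    ring
  have h1 : ∀ x : ℝ, 0 ≤ (∫ y, K y) * (x * x) + (-(2 * ∫ y, K y * h y)) * x +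
      ∫ y, K y * h y ^ 2 := by
    intro x
    have h2 : 0 ≤ ∫ y, K y * (h y - x) ^ 2 :=
      integral_nonneg fun y => mul_nonneg (hK0 y) (sq_nonneg _)
    have h3 : ∫ y, K y * (h y - x) ^ 2 = ∫ y, ((K y * h y ^ 2 + (-2 * x) * (K y * h y)) +
        (x * x) * K y) := by
      congr 1
      funext y
      ring
    have i3 : Integrable (fun y => K y * h y ^ 2 + (-2 * x) * (K y * h y)) :=
      i2.add (i1.const_mul (-2 * x))
    rw [h3, integral_add i3 (hK.const_mul (x * x)),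
      integral_add i2 (i1.const_mul (-2 * x)), integral_const_mul, integral_const_mul] at h2
    linarith
  have h4 := discrim_le_zero h1
  unfold discrim at h4
  nlinarith

/-- the `j`-th derivative of an exponential sum -/
def exj {ι : Type} (S : Finset ι) (a : ι → ℂ) (fr : ι → ℝ) (j : ℕ) (v : ℝ) : ℂ :=
  ∑ i ∈ S, a i * (-(I * fr i)) ^ j * cexp (-(I * (fr i * v)))

theorem exj_cont {ι : Type} (S : Finset ι) (a : ι → ℂ) (fr : ι → ℝ) (j : ℕ) :
    Continuous (exj S a fr j) := by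
  unfold exj
  fun_prop

theorem norm_e (x v : ℝ) : ‖cexp (-(I * (x * v)))‖ = 1 := by
  have : (-(I * (x * v)) : ℂ) = ((-(x * v) : ℝ) : ℂ) * I := by
    push_cast
    ring
  rw [this, Complex.norm_exp_ofReal_mul_I]

theorem exj_bd {ι : Type} (S : Finset ι) (a : ι → ℂ) (fr : ι → ℝ) (j : ℕ) (v : ℝ) :
    ‖exj S a fr j v‖ ≤ ∑ i ∈ S, ‖a i * (-(I * fr i)) ^ j‖ := by
  unfold exj
  refine (norm_sum_le _ _).trans (Finset.sum_le_sum fun i _ => ?_)
  rw [norm_mul, norm_e, mul_one]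

/-- reproducing formula -/
theorem rep {k : ℝ → ℂ} {m : ℝ → ℂ} (hki : Integrable k)
    (hk : ∀ ξ : ℝ, |ξ| ≤ 2 → ∫ x, k x * cexp (I * (ξ * x)) = m (ξ / (2 * Real.pi))) {ι : Type} (S : Finset ι)
    (a : ι → ℂ) (fr : ι → ℝ) {L : ℝ} (hL : 0 < L) (hfr : ∀ i ∈ S, |fr i| ≤ 2 * L) (j : ℕ) (t : ℝ) :
    ∫ v : ℝ, k (L * (t - v)) * exj S a fr j v =
      (L : ℂ)⁻¹ * ∑ i ∈ S, m (fr i / L / (2 * Real.pi)) * (a i * (-(I * fr i)) ^ j * cexp (-(I * (fr i * t)))) := by
  have hK : Integrable (fun v : ℝ => k (L * (t - v))) := by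
    have h1 := (hki.comp_mul_left' hL.ne').comp_sub_left t
    exact h1
  -- one exponential
  have hone : ∀ i ∈ S, ∫ v : ℝ, k (L * (t - v)) * (a i * (-(I * fr i)) ^ j * cexp (-(I * (fr i * v)))) =
      (L : ℂ)⁻¹ * (m (fr i / L / (2 * Real.pi)) * (a i * (-(I * fr i)) ^ j * cexp (-(I * (fr i * t))))) := by
    intro i hi
    have h1 : ∀ v : ℝ, k (L * (t - v)) * (a i * (-(I * fr i)) ^ j * cexp (-(I * (fr i * v)))) =
        (fun x : ℝ => (a i * (-(I * fr i)) ^ j * cexp (-(I * (fr i * t)))) *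
          (k (L * x) * cexp (I * (((fr i / L : ℝ) : ℂ) * (L * x : ℝ))))) (t - v) := by
      intro v
      simp only
      have h2 : cexp (-(I * (fr i * v))) = cexp (-(I * (fr i * t))) *
          cexp (I * (((fr i / L : ℝ) : ℂ) * (L * (t - v) : ℝ))) := by
        rw [← Complex.exp_add]
        congr 1
        have hLc : (L : ℂ) ≠ 0 := by exact_mod_cast hL.ne'
        push_cast
        field_simp
        ring
      rw [h2]
      ring
    simp only [h1]
    rw [integral_sub_left_eq_self (fun x : ℝ => (a i * (-(I * fr i)) ^ j * cexp (-(I * (fr i * t)))) *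
          (k (L * x) * cexp (I * (((fr i / L : ℝ) : ℂ) * (L * x : ℝ))))) volume t,
      integral_const_mul]
    have h3 := Measure.integral_comp_mul_left (fun x : ℝ => k x * cexp (I * (((fr i / L : ℝ) : ℂ) * (x : ℝ)))) L
    rw [h3, hk]
    · rw [abs_of_pos (inv_pos.2 hL), Complex.real_smul]
      push_cast
      ring
    · rw [abs_div, abs_of_pos hL, div_le_iff₀ hL]
      exact hfr i hi
  have h1 : ∫ v : ℝ, k (L * (t - v)) * exj S a fr j v =
      ∑ i ∈ S, ∫ v : ℝ, k (L * (t - v)) * (a i * (-(I * fr i)) ^ j * cexp (-(I * (fr i * v)))) := by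
    rw [← integral_finsetSum]
    · simp only [exj, Finset.mul_sum]
    · intro i _
      refine (hK.bdd_mul (c := ‖a i * (-(I * fr i)) ^ j‖)
        (f := fun v : ℝ => a i * (-(I * fr i)) ^ j * cexp (-(I * (fr i * v)))) ?_ ?_).congr ?_
      · exact (by fun_prop : Continuous fun v : ℝ => a i * (-(I * fr i)) ^ j * cexp (-(I * (fr i * v)))).aestronglyMeasurable
      · refine Eventually.of_forall fun v => ?_
        rw [norm_mul, norm_e, mul_one]
      · exact Eventually.of_forall fun v => mul_comm _ _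
  rw [h1, Finset.sum_congr rfl hone, ← Finset.mul_sum]

/-- the weight is submultiplicative -/
theorem om_sub {p : ℕ} {L : ℝ} (t v w : ℝ) :
    1 / (1 + |L * (v - w)|) ^ p ≤ (1 + |L * (t - v)|) ^ p * (1 / (1 + |L * (t - w)|) ^ p) := by
  have h1 : 1 + |L * (t - w)| ≤ (1 + |L * (t - v)|) * (1 + |L * (v - w)|) := by
    have h2 : |L * (t - w)| ≤ |L * (t - v)| + |L * (v - w)| := by
      have : L * (t - w) = L * (t - v) + L * (v - w) := by ring
      rw [this]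
      exact abs_add_le _ _
    have h3 : 0 ≤ |L * (t - v)| * |L * (v - w)| := by positivity
    nlinarith
  have h4 : (1 + |L * (t - w)|) ^ p ≤ (1 + |L * (t - v)|) ^ p * (1 + |L * (v - w)|) ^ p := by
    rw [← mul_pow]
    exact pow_le_pow_left₀ (by positivity) h1 p
  rw [mul_one_div, div_le_div_iff₀ (by positivity) (by positivity)]
  linarith

theorem om_sub' {p : ℕ} {L : ℝ} (t v w : ℝ) :
    (1 + |L * (t - w)|) ^ p ≤ (1 + |L * (t - v)|) ^ p * (1 + |L * (v - w)|) ^ p := by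
  have h1 : 1 + |L * (t - w)| ≤ (1 + |L * (t - v)|) * (1 + |L * (v - w)|) := by
    have h2 : |L * (t - w)| ≤ |L * (t - v)| + |L * (v - w)| := by
      have : L * (t - w) = L * (t - v) + L * (v - w) := by ring
      rw [this]
      exact abs_add_le _ _
    have h3 : 0 ≤ |L * (t - v)| * |L * (v - w)| := by positivity
    nlinarith
  rw [← mul_pow]
  exact pow_le_pow_left₀ (by positivity) h1 p

theorem om_int {p : ℕ} (hp : 2 ≤ p) : Integrable (fun x : ℝ => 1 / (1 + |x|) ^ p) := by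
  have h := integrable_one_add_norm (E := ℝ) (μ := volume) (r := p) (by
    simp only [Module.finrank_self, Nat.cast_one]
    exact_mod_cast hp)
  refine h.congr (Eventually.of_forall fun x => ?_)
  simp only [Real.norm_eq_abs]
  rw [Real.rpow_neg (by positivity), Real.rpow_natCast, one_div]

theorem om_int' {p : ℕ} (hp : 2 ≤ p) {L : ℝ} (hL : 0 < L) (t : ℝ) :
    Integrable (fun v : ℝ => L * (1 / (1 + |L * (t - v)|) ^ p)) ∧
      ∫ v : ℝ, L * (1 / (1 + |L * (t - v)|) ^ p) = ∫ x : ℝ, 1 / (1 + |x|) ^ p := by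
  constructor
  · have h1 := ((om_int hp).comp_mul_left' hL.ne').comp_sub_left t
    exact h1.const_mul L
  · rw [integral_const_mul, integral_sub_left_eq_self (fun x : ℝ => 1 / (1 + |L * x|) ^ p) volume t]
    have h8 := Measure.integral_comp_mul_left (fun x : ℝ => 1 / (1 + |x|) ^ p) L
    rw [h8, abs_of_pos (inv_pos.2 hL), smul_eq_mul, ← mul_assoc, mul_inv_cancel₀ hL.ne', one_mul]

/-- band limited functions: local bounds for all derivatives -/
theorem deriv_bd (p : ℕ) (hp : 2 ≤ p) : ∃ B : ℝ, 1 ≤ B ∧ ∀ (ι : Type) (S : Finset ι) (a : ι → ℂ) (fr : ι → ℝ) (L : ℝ), 0 < L →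
    (∀ i ∈ S, |fr i| ≤ 2 * L) → ∀ (t : ℝ) (j : ℕ) (v : ℝ), ‖exj S a fr j v‖ ≤
      (B * L) ^ j * ((1 + |L * (t - v)|) ^ p * (B * ∫ w : ℝ, L * (1 / (1 + |L * (t - w)|) ^ p) * ‖exj S a fr 0 w‖)) := by
  obtain ⟨k₀, -, k0i, k0d, k0m⟩ := exists_kernel (m := fun _ => 1) contDiff_const
  obtain ⟨k₁, k1c, k1i, k1d, k1m⟩ := exists_kernel (m := fun w : ℝ => -(2 * Real.pi * I * (w : ℂ))) (by
    have h3 : ContDiff ℝ ∞ (fun w : ℝ => (w : ℂ)) := Complex.ofRealCLM.contDiff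
    exact (contDiff_const.mul h3).neg)
  obtain ⟨C₀, hC₀, hk0⟩ := k0d p
  obtain ⟨C₁, hC₁, hk1⟩ := k1d (p + 2)
  obtain ⟨W, hW⟩ : ∃ W : ℝ, W = ∫ x : ℝ, 1 / (1 + |x|) ^ 2 := ⟨_, rfl⟩
  have hW0 : 0 ≤ W := by
    rw [hW]
    exact integral_nonneg fun x => by positivity
  obtain ⟨B, hB⟩ : ∃ B : ℝ, B = 1 + C₀ + C₁ * W := ⟨_, rfl⟩
  have hBC₀ : C₀ ≤ B := by
    rw [hB]
    have : 0 ≤ C₁ * W := by positivity
    linarith
  have hBC₁ : C₁ * W ≤ B := by
    rw [hB]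
    linarith
  have hB1 : 1 ≤ B := by
    rw [hB]
    have : 0 ≤ C₁ * W := by positivity
    linarith
  refine ⟨B, hB1, ?_⟩
  intro ι S a fr L hL hfr t
  obtain ⟨A, hA⟩ : ∃ A : ℝ, A = ∫ w : ℝ, L * (1 / (1 + |L * (t - w)|) ^ p) * ‖exj S a fr 0 w‖ := ⟨_, rfl⟩
  have hA0 : 0 ≤ A := by
    rw [hA]
    exact integral_nonneg fun w => by positivity
  rw [← hA]
  have iw : ∀ (t : ℝ), Integrable (fun w : ℝ => L * (1 / (1 + |L * (t - w)|) ^ p) * ‖exj S a fr 0 w‖) := by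
    intro t
    refine ((om_int' hp hL t).1.bdd_mul (c := ∑ i ∈ S, ‖a i * (-(I * fr i)) ^ 0‖) (f := fun w => ‖exj S a fr 0 w‖)
      (exj_cont S a fr 0).norm.aestronglyMeasurable ?_).congr ?_
    · refine Eventually.of_forall fun w => ?_
      rw [norm_norm]
      exact exj_bd S a fr 0 w
    · exact Eventually.of_forall fun w => mul_comm _ _
  intro j
  induction j with
  | zero =>
    intro v
    rw [pow_zero, one_mul]
    have h1 := rep (m := fun _ => 1) k0i k0m S a fr hL hfr 0 v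
    have h2 : exj S a fr 0 v = L * ∫ w : ℝ, k₀ (L * (v - w)) * exj S a fr 0 w := by
      rw [h1]
      have hLc : (L : ℂ) ≠ 0 := by exact_mod_cast hL.ne'
      rw [← mul_assoc, mul_inv_cancel₀ hLc, one_mul]
      simp only [one_mul]
      rfl
    rw [h2, norm_mul, Complex.norm_real, Real.norm_eq_abs, abs_of_pos hL]
    have h3 : ‖∫ w : ℝ, k₀ (L * (v - w)) * exj S a fr 0 w‖ ≤
        ∫ w : ℝ, (C₀ * (1 + |L * (t - v)|) ^ p * L⁻¹) * (L * (1 / (1 + |L * (t - w)|) ^ p) * ‖exj S a fr 0 w‖) := by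
      apply norm_integral_le_of_norm_le ((iw t).const_mul _)
      refine Eventually.of_forall fun w => ?_
      rw [norm_mul]
      have h4 : ‖k₀ (L * (v - w))‖ ≤ C₀ * ((1 + |L * (t - v)|) ^ p * (1 / (1 + |L * (t - w)|) ^ p)) := by
        refine (hk0 _).trans ?_
        rw [div_eq_mul_one_div]
        exact mul_le_mul_of_nonneg_left (om_sub t v w) hC₀.le
      calc ‖k₀ (L * (v - w))‖ * ‖exj S a fr 0 w‖ ≤
          C₀ * ((1 + |L * (t - v)|) ^ p * (1 / (1 + |L * (t - w)|) ^ p)) * ‖exj S a fr 0 w‖ :=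
            mul_le_mul_of_nonneg_right h4 (norm_nonneg _)
        _ = _ := by
          field_simp
    rw [integral_const_mul, ← hA] at h3
    calc L * ‖∫ w : ℝ, k₀ (L * (v - w)) * exj S a fr 0 w‖ ≤
        L * (C₀ * (1 + |L * (t - v)|) ^ p * L⁻¹ * A) := mul_le_mul_of_nonneg_left h3 hL.le
      _ = (1 + |L * (t - v)|) ^ p * (C₀ * A) := by
        field_simp
      _ ≤ _ := by gcongr
  | succ j ih =>
    intro v
    have h1 := rep (m := fun w : ℝ => -(2 * Real.pi * I * (w : ℂ))) k1i k1m S a fr hL hfr j v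
    have h2 : exj S a fr (j + 1) v = (L : ℂ) ^ 2 * ∫ w : ℝ, k₁ (L * (v - w)) * exj S a fr j w := by
      rw [h1]
      have hLc : (L : ℂ) ≠ 0 := by exact_mod_cast hL.ne'
      have hpi : (Real.pi : ℂ) ≠ 0 := by exact_mod_cast Real.pi_ne_zero
      unfold exj
      rw [← mul_assoc, Finset.mul_sum]
      refine Finset.sum_congr rfl fun i _ => ?_
      push_cast
      rw [pow_succ]
      field_simp
    rw [h2, norm_mul, norm_pow, Complex.norm_real, Real.norm_eq_abs, abs_of_pos hL]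
    have h3 : ‖∫ w : ℝ, k₁ (L * (v - w)) * exj S a fr j w‖ ≤
        ∫ w : ℝ, (C₁ * L⁻¹ * ((B * L) ^ j * ((1 + |L * (t - v)|) ^ p * (B * A)))) *
          (L * (1 / (1 + |L * (v - w)|) ^ 2)) := by
      apply norm_integral_le_of_norm_le ((om_int' le_rfl hL v).1.const_mul _)
      refine Eventually.of_forall fun w => ?_
      rw [norm_mul]
      have h4 : ‖exj S a fr j w‖ ≤ (B * L) ^ j * (((1 + |L * (t - v)|) ^ p * (1 + |L * (v - w)|) ^ p) * (B * A)) := by
        refine (ih w).trans ?_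
        have := om_sub' (p := p) (L := L) t v w
        gcongr
      calc ‖k₁ (L * (v - w))‖ * ‖exj S a fr j w‖ ≤ (C₁ / (1 + |L * (v - w)|) ^ (p + 2)) *
          ((B * L) ^ j * (((1 + |L * (t - v)|) ^ p * (1 + |L * (v - w)|) ^ p) * (B * A))) :=
            mul_le_mul (hk1 _) h4 (norm_nonneg _) (by positivity)
        _ = _ := by
          rw [pow_add]
          have : (1 + |L * (v - w)|) ≠ 0 := by positivity
          field_simp
    rw [integral_const_mul, (om_int' le_rfl hL v).2, ← hW] at h3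
    calc L ^ 2 * ‖∫ w : ℝ, k₁ (L * (v - w)) * exj S a fr j w‖ ≤
        L ^ 2 * (C₁ * L⁻¹ * ((B * L) ^ j * ((1 + |L * (t - v)|) ^ p * (B * A))) * W) :=
          mul_le_mul_of_nonneg_left h3 (by positivity)
      _ = (C₁ * W) * L * ((B * L) ^ j * ((1 + |L * (t - v)|) ^ p * (B * A))) := by
        field_simp
      _ ≤ B * L * ((B * L) ^ j * ((1 + |L * (t - v)|) ^ p * (B * A))) := by gcongr
      _ = _ := by ring

/-- Taylor expansion of an exponential sum -/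
theorem taylor {ι : Type} (S : Finset ι) (a : ι → ℂ) (fr : ι → ℝ) (j₀ : ℕ) (t y : ℝ) :
    HasSum (fun j : ℕ => ((y : ℂ) * I) ^ j / (j.factorial : ℂ) * exj S a fr (j + j₀) t)
      (∑ i ∈ S, a i * (-(I * fr i)) ^ j₀ * cexp (-(I * (fr i * (t + y * I))))) := by
  have h1 : ∀ i ∈ S, HasSum (fun j : ℕ => ((y : ℂ) * I) ^ j / (j.factorial : ℂ) *
      (a i * (-(I * fr i)) ^ (j + j₀) * cexp (-(I * (fr i * t)))))
      (a i * (-(I * fr i)) ^ j₀ * cexp (-(I * (fr i * (t + y * I))))) := by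
    intro i _
    have h2 : HasSum (fun j : ℕ => ((-(I * fr i)) * (y * I)) ^ j / (j.factorial : ℂ))
        (cexp ((-(I * fr i)) * (y * I))) := by
      rw [Complex.exp_eq_exp_ℂ]
      exact NormedSpace.expSeries_div_hasSum_exp ((-(I * fr i)) * (y * I))
    have h3 := h2.mul_left (a i * (-(I * fr i)) ^ j₀ * cexp (-(I * (fr i * t))))
    have h4 : a i * (-(I * fr i)) ^ j₀ * cexp (-(I * (fr i * t))) * cexp ((-(I * fr i)) * (y * I)) =
        a i * (-(I * fr i)) ^ j₀ * cexp (-(I * (fr i * (t + y * I)))) := by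
      rw [mul_assoc, ← Complex.exp_add]
      congr 2
      ring
    rw [h4] at h3
    refine h3.congr_fun ?_
    intro j
    rw [pow_add, mul_pow]
    ring
  have h5 := hasSum_sum h1
  refine h5.congr_fun ?_
  intro j
  unfold exj
  rw [Finset.mul_sum]

theorem main (p : ℕ) (hp : 2 ≤ p) : ∃ B : ℝ, 1 ≤ B ∧ ∀ (ι : Type) (S : Finset ι) (a : ι → ℂ) (fr : ι → ℝ) (L : ℝ), 0 < L →
    (∀ i ∈ S, |fr i| ≤ 2 * L) → ∀ t y : ℝ, ∀ j₀ : ℕ,
    ‖∑ i ∈ S, a i * (-(I * fr i)) ^ j₀ * cexp (-(I * (fr i * (t + y * I))))‖ ^ 2 ≤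
      B * (B * L) ^ (2 * j₀) * Real.exp (B * (L * |y|)) *
        ∫ v : ℝ, L * (1 / (1 + |L * (t - v)|) ^ p) * ‖exj S a fr 0 v‖ ^ 2 := by
  obtain ⟨B, hB1, hB⟩ := deriv_bd p hp
  obtain ⟨W, hW⟩ : ∃ W : ℝ, W = ∫ x : ℝ, 1 / (1 + |x|) ^ p := ⟨_, rfl⟩
  have hW0 : 0 ≤ W := by
    rw [hW]
    exact integral_nonneg fun x => by positivity
  refine ⟨2 * B + B ^ 2 * W, ?_, ?_⟩
  · have : 0 ≤ B ^ 2 * W := by positivity
    linarith
  intro ι S a fr L hL hfr t y j₀
  obtain ⟨A, hA⟩ : ∃ A : ℝ, A = ∫ w : ℝ, L * (1 / (1 + |L * (t - w)|) ^ p) * ‖exj S a fr 0 w‖ := ⟨_, rfl⟩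
  have hA0 : 0 ≤ A := by
    rw [hA]
    exact integral_nonneg fun w => by positivity
  have h1 : ∀ j : ℕ, ‖((y : ℂ) * I) ^ j / (j.factorial : ℂ) * exj S a fr (j + j₀) t‖ ≤
      (B * L) ^ j₀ * (B * A) * ((B * (L * |y|)) ^ j / (j.factorial : ℝ)) := by
    intro j
    have h2 := hB ι S a fr L hL hfr t (j + j₀) t
    rw [← hA, sub_self, mul_zero, abs_zero, add_zero, one_pow, one_mul] at h2
    rw [norm_mul, norm_div, norm_pow, norm_mul, Complex.norm_I, mul_one, Complex.norm_real, Real.norm_eq_abs,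
      Complex.norm_natCast]
    calc |y| ^ j / (j.factorial : ℝ) * ‖exj S a fr (j + j₀) t‖ ≤
        |y| ^ j / (j.factorial : ℝ) * ((B * L) ^ (j + j₀) * (B * A)) :=
          mul_le_mul_of_nonneg_left h2 (by positivity)
      _ = _ := by
        rw [pow_add, mul_pow B (L * |y|), mul_pow L |y|, mul_pow B L j]
        ring
  have h3 : HasSum (fun j : ℕ => (B * L) ^ j₀ * (B * A) * ((B * (L * |y|)) ^ j / (j.factorial : ℝ)))
      ((B * L) ^ j₀ * (B * A) * Real.exp (B * (L * |y|))) := by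
    apply HasSum.mul_left
    rw [Real.exp_eq_exp_ℝ]
    exact NormedSpace.expSeries_div_hasSum_exp (B * (L * |y|))
  have h4 : ‖∑ i ∈ S, a i * (-(I * fr i)) ^ j₀ * cexp (-(I * (fr i * (t + y * I))))‖ ≤
      (B * L) ^ j₀ * (B * A) * Real.exp (B * (L * |y|)) := by
    rw [← (taylor S a fr j₀ t y).tsum_eq]
    exact tsum_of_norm_bounded h3 h1
  have h5 : A ^ 2 ≤ W * ∫ v : ℝ, L * (1 / (1 + |L * (t - v)|) ^ p) * ‖exj S a fr 0 v‖ ^ 2 := by
    have h6 := cs_weight (K := fun v : ℝ => L * (1 / (1 + |L * (t - v)|) ^ p)) (h := fun v => ‖exj S a fr 0 v‖)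
      (b := ∑ i ∈ S, ‖a i * (-(I * fr i)) ^ 0‖) (om_int' hp hL t).1 (fun x => by positivity) (exj_cont S a fr 0).norm
      (fun x => by
        rw [abs_of_nonneg (norm_nonneg _)]
        exact exj_bd S a fr 0 x)
    rw [(om_int' hp hL t).2, ← hW, ← hA] at h6
    exact h6
  obtain ⟨J, hJ⟩ : ∃ J : ℝ, J = ∫ v : ℝ, L * (1 / (1 + |L * (t - v)|) ^ p) * ‖exj S a fr 0 v‖ ^ 2 := ⟨_, rfl⟩
  have hJ0 : 0 ≤ J := by
    rw [hJ]
    exact integral_nonneg fun w => by positivity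
  rw [← hJ] at h5 ⊢
  calc ‖∑ i ∈ S, a i * (-(I * fr i)) ^ j₀ * cexp (-(I * (fr i * (t + y * I))))‖ ^ 2 ≤
      ((B * L) ^ j₀ * (B * A) * Real.exp (B * (L * |y|))) ^ 2 := pow_le_pow_left₀ (norm_nonneg _) h4 2
    _ = B ^ 2 * (B * L) ^ (2 * j₀) * Real.exp (2 * B * (L * |y|)) * A ^ 2 := by
      rw [show (2 * B * (L * |y|)) = B * (L * |y|) + B * (L * |y|) by ring, Real.exp_add]
      ring
    _ ≤ B ^ 2 * (B * L) ^ (2 * j₀) * Real.exp (2 * B * (L * |y|)) * (W * J) := by gcongr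
    _ = (B ^ 2 * W) * (B * L) ^ (2 * j₀) * Real.exp (2 * B * (L * |y|)) * J := by ring
    _ ≤ (2 * B + B ^ 2 * W) * ((2 * B + B ^ 2 * W) * L) ^ (2 * j₀) * Real.exp ((2 * B + B ^ 2 * W) * (L * |y|)) * J := by
      have e1 : 0 ≤ B ^ 2 * W := by positivity
      have e2 : B ^ 2 * W ≤ 2 * B + B ^ 2 * W := by linarith
      have e3 : B ≤ 2 * B + B ^ 2 * W := by linarith
      have e4 : 2 * B ≤ 2 * B + B ^ 2 * W := by linarith
      gcongr

/-- the statement `S_CB` (unfolded) -/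
theorem cb : ∀ p : ℕ, 2 ≤ p → ∃ B : ℝ, 1 ≤ B ∧ ∀ (ι : Type) (S : Finset ι) (a : ι → ℂ) (fr : ι → ℝ) (L : ℝ), 0 < L →
  (∀ i ∈ S, |fr i| ≤ 2 * L) → ∀ t y : ℝ,
    ‖∑ i ∈ S, a i * cexp (-(I * (fr i * ((t : ℂ) + y * I))))‖ ^ 2 ≤
      B * Real.exp (B * (L * |y|)) * ∫ v : ℝ, L * (1 / (1 + |L * (t - v)|) ^ p) *
        ‖∑ i ∈ S, a i * cexp (-(I * (fr i * (v : ℂ))))‖ ^ 2 ∧
    ‖∑ i ∈ S, a i * (-(I * fr i)) * cexp (-(I * (fr i * ((t : ℂ) + y * I))))‖ ^ 2 ≤
      B * L ^ 2 * Real.exp (B * (L * |y|)) * ∫ v : ℝ, L * (1 / (1 + |L * (t - v)|) ^ p) *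
        ‖∑ i ∈ S, a i * cexp (-(I * (fr i * (v : ℂ))))‖ ^ 2 := by
  intro p hp
  obtain ⟨B, hB1, hB⟩ := main p hp
  refine ⟨B ^ 3, one_le_pow₀ hB1, ?_⟩
  intro ι S a fr L hL hfr t y
  have e0 : ∀ v : ℝ, ∑ i ∈ S, a i * cexp (-(I * (fr i * (v : ℂ)))) = exj S a fr 0 v := by
    intro v
    unfold exj
    simp only [pow_zero, mul_one]
  simp only [e0]
  obtain ⟨J, hJ⟩ : ∃ J : ℝ, J = ∫ v : ℝ, L * (1 / (1 + |L * (t - v)|) ^ p) * ‖exj S a fr 0 v‖ ^ 2 := ⟨_, rfl⟩
  have hJ0 : 0 ≤ J := by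
    rw [hJ]
    exact integral_nonneg fun w => by positivity
  have h3 : B ≤ B ^ 3 := le_self_pow₀ hB1 (by norm_num)
  constructor
  · have h := hB ι S a fr L hL hfr t y 0
    simp only [pow_zero, mul_one, mul_zero] at h
    refine h.trans ?_
    rw [← hJ]
    gcongr
  · have h := hB ι S a fr L hL hfr t y 1
    simp only [pow_one, mul_one] at h
    refine h.trans ?_
    rw [← hJ]
    have h4 : B * (B * L) ^ 2 = B ^ 3 * L ^ 2 := by ring
    rw [h4]
    gcongr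

end

end Pool.Agent.V7H50.GH
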